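import Pool.Agent.Helper64.DT.Stmts
import Pool.Agent.Helper91.CT.LC

set_option autoImplicit false

namespace Pool.Agent.Helper64.DT

open Pool.Agent.Helper64.CT
open Pool.Agent.Helper64.HG (Ovl Model Circ IC HellyCircle ChordModel)

variable {V : Type}

/-- the assumption that the conclusion of `ST_BLW` fails -/
def blw_H (G : SimpleGraph V) (c x : V) : Prop :=
  ∀ z p q, Clu G c x z → p ∈ Att G c z → G.Adj c q → G.Adj p q → q ∈ lc_MM G c x

theorem blw_b (h2 : CT.ST_CL2) {G : SimpleGraph V} {c x p q : V} (hH : blw_H G c x)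
    (hx : x ∈ Far G c) (hp : p ∈ lc_P G c x) (hq : q ∉ lc_P G c x) (hpq : G.Adj p q) :
    p ∈ lc_MM G c x ∧ (q = c ∨ ∀ n, n ∈ lc_MM G c x → G.Adj q n) := by
  rcases hp with hp | hp | hp
  · exfalso
    have hqc : q ≠ c := by
      rintro rfl
      exact hp.1.2 hpq.symm
    by_cases hcq : G.Adj c q
    · exact hq (Or.inr (Or.inl ⟨p, hp.1, hp.2, hcq, p, Comp.refl hp.1, hpq.symm⟩))
    · have hqf : q ∈ Far G c := ⟨hqc, hcq⟩
      exact hq (Or.inl ⟨hqf, hp.2.tail (Or.inl (Comp.adj hp.1 hqf hpq))⟩)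
  · refine ⟨hp, ?_⟩
    by_cases hqc : q = c
    · exact Or.inl hqc
    · right
      obtain ⟨z, hzf, hxz, hpz⟩ := hp
      have hcq : ¬ G.Adj c q := fun h => hq (Or.inr (Or.inl (hH z p q hxz hpz h hpq)))
      have hqf : q ∈ Far G c := ⟨hqc, hcq⟩
      have hpq' : p ∈ Att G c q := ⟨hpz.1, q, Comp.refl hqf, hpq⟩
      have hncl : ¬ Clu G c x q := fun h => hq (Or.inl ⟨hqf, h⟩)
      have hle : Le G c x q := by
        by_contra h
        exact hq (Or.inr (Or.inr ⟨hqf, hncl, ⟨p, ⟨z, hzf, hxz, hpz⟩, hpq'⟩, h⟩))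
      rcases (h2 V G c x q hx hqf hle hncl).2 q (Comp.refl hqf) with h | h
      · rintro n ⟨z', _, hz', hn⟩
        exact h z' n hz' hn
      · exact absurd hpq.symm (h z p hxz hpz)
  · exfalso
    have hqc : q ≠ c := by
      rintro rfl
      exact hp.1.2 hpq.symm
    obtain ⟨z, _, _, _, hsub⟩ := lc_a h2 hx hp
    obtain ⟨hpf, hncl, ⟨n, hn, hnp⟩, hnle⟩ := hp
    by_cases hcq : G.Adj c q
    · exact hq (Or.inr (Or.inl (hsub q ⟨hcq, p, Comp.refl hpf, hpq.symm⟩)))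
    · have hqf : q ∈ Far G c := ⟨hqc, hcq⟩
      have hcomp : Comp G c p q := Comp.adj hpf hqf hpq
      refine hq (Or.inr (Or.inr ⟨hqf, fun h => hncl (h.tail (Or.inl hcomp.symm)),
        ⟨n, hn, by rw [← Att.congr hcomp]; exact hnp⟩, ?_⟩))
      rintro ⟨⟨n', h3, h4⟩, h5⟩
      refine hnle ⟨⟨n', h3, by rw [Att.congr hcomp]; exact h4⟩, ?_⟩
      intro u hu
      exact h5 u (hcomp.symm.trans hu)

theorem blw_cross (h2 : CT.ST_CL2) {G : SimpleGraph V} {c x : V} (hH : blw_H G c x)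
    (hx : x ∈ Far G c) : Cross G (lc_P G c x) := by
  intro a ha a' ha' b hb b' hb' hab hab'
  obtain ⟨h3, -⟩ := blw_b h2 hH hx ha hb hab
  obtain ⟨-, h4⟩ := blw_b h2 hH hx ha' hb' hab'
  rcases h4 with rfl | h4
  · obtain ⟨z, _, _, h5⟩ := h3
    exact h5.1.symm
  · exact (h4 a h3).symm

theorem blw_split (h1 : CT.ST_ATT) (h2 : CT.ST_CL2) {G : SimpleGraph V} (hG : G.Preconnected)
    {c x y : V} (hH : blw_H G c x) (hx : x ∈ Far G c) (hy : y ∈ Far G c)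
    (hyP : y ∉ lc_P G c x) : Split G (lc_P G c x) := by
  refine ⟨blw_cross h2 hH hx, ?_, ?_⟩
  · obtain ⟨n, hn⟩ := h1 V G hG c x hx
    refine ⟨x, Or.inl ⟨hx, Relation.ReflTransGen.refl⟩, n,
      Or.inr (Or.inl ⟨x, hx, Relation.ReflTransGen.refl, hn⟩), ?_⟩
    rintro rfl
    exact hx.2 hn.1
  · refine ⟨c, ?_, y, hyP, fun h => hy.1 h.symm⟩
    rintro (h | h | h)
    · exact h.1.1 rfl
    · obtain ⟨z, _, _, h5⟩ := h
      exact G.irrefl h5.1
    · exact h.1.1 rfl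

theorem st_BLW (h1 : CT.ST_ATT) (h2 : CT.ST_CL2) : ST_BLW := by
  intro V G hG hPr c x y hx hy hle hncl
  by_contra hcon
  have hH : blw_H G c x := by
    intro z p q hz hp hcq hpq
    by_contra hq
    refine hcon ⟨z, p, q, hz, hp, hcq, hpq, ?_⟩
    intro w hw hqw
    refine hq ⟨w, ?_, hw, hqw⟩
    obtain ⟨_, u, hu, _⟩ := hqw
    exact hu.left
  refine hPr _ (blw_split h1 h2 hG hH hx hy ?_)
  rintro (h | h | h)
  · exact hncl h.2
  · obtain ⟨z, _, _, h5⟩ := h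
    exact hy.2 h5.1
  · exact h.2.2.2 hle

end Pool.Agent.Helper64.DT
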